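import Mathlib

set_option autoImplicit false

/-!
# Project FX (MP_0e1483_co): flexibility of morphic ternary square-free words

Positions are numbered from `0`.
-/

namespace Pool.Agent.K7.H4.FX

open Filter

/-- the infinite ternary word `u` is square-free -/
def SquareFree (u : ℕ → Fin 3) : Prop := ∀ i m, 1 ≤ m → ∃ j < m, u (i + j) ≠ u (i + m + j)

/-- `P` is a wildcard set for `u`: after replacing the letters at the positions of `P` by holes there is
no partial square of period `m ≥ 2` -/
def Wildcard (u : ℕ → Fin 3) (P : Set ℕ) : Prop :=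
  ∀ i m, 2 ≤ m → ∃ j < m, i + j ∉ P ∧ i + m + j ∉ P ∧ u (i + j) ≠ u (i + m + j)

/-- the upper density of `P` -/
noncomputable def dens (P : Set ℕ) : ℝ :=
  limsup (fun n : ℕ => ((P ∩ Set.Iio n).ncard : ℝ) / n) atTop

/-- the flexibility of `u` -/
noncomputable def flex (u : ℕ → Fin 3) : ℝ := sSup {x : ℝ | ∃ P, Wildcard u P ∧ x = dens P}

/-- the `k`-th iterate of the morphism `φ` on the letter `x` -/
def iter {A : Type} (φ : A → List A) (x : A) : ℕ → List A
  | 0 => [x]
  | k + 1 => (iter φ x k).flatMap φ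

/-- `u` is morphic: `u = τ(φ^ω(x))` with a morphism `φ` on a finite alphabet, prolongable on `x`
(`φ(x) = x s` with `s` nonempty, and the iterates grow), and a coding `τ` -/
def Morphic (u : ℕ → Fin 3) : Prop :=
  ∃ (A : Type) (_ : Fintype A) (φ : A → List A) (x : A) (τ : A → Fin 3),
    (∃ s, s ≠ [] ∧ φ x = x :: s) ∧ (∀ n, ∃ k, n ≤ (iter φ x k).length) ∧
      ∀ k, (iter φ x k).map τ = List.ofFn fun i : Fin (iter φ x k).length => u i

/-- JOB MOR: if `w` is a fixed point of a `k`-uniform morphism `g` and `u` is its image under an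
`L`-uniform morphism `h`, then `u` is morphic (alphabet `Fin 3 × Fin L`, the letter `(w (n / L), n % L)` at
the position `n`; `φ (x, r)` is the word of length `k` with the letters
`(g x ((k r + j) / L), (k r + j) % L)`) -/
def StMor : Prop := ∀ (k L : ℕ) (g : Fin 3 → ℕ → Fin 3) (w : ℕ → Fin 3) (h : Fin 3 → ℕ → Fin 3),
  2 ≤ k → 1 ≤ L → (∀ n j, j < k → w (k * n + j) = g (w n) j) → ∀ u : ℕ → Fin 3,
    (∀ n, u n = h (w (n / L)) (n % L)) → Morphic u

/-- JOB DEN: the positions which are `6, 8, 15` modulo `16` have density `3 / 16` -/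
def StDen : Prop :=
  Tendsto (fun n : ℕ => (({p : ℕ | p % 16 = 6 ∨ p % 16 = 8 ∨ p % 16 = 15} ∩ Set.Iio n).ncard : ℝ) / n)
    atTop (nhds (3 / 16))

end Pool.Agent.K7.H4.FX
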